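import Pool.Agent.H886R2.Dig.Struct2

namespace Pool.Agent.H886R2.Dig

variable {α : Type*}

namespace Code

variable {x : ℕ → α} {N ℓ h b : ℕ} {β : ℕ → ℕ} {X : ℕ → Bool} {len : Bool → ℕ} {D : ℕ}

theorem agrB (A : Code x N ℓ h b β X len D) (i j : ℕ) : Agr x (β i) (β j) b := by
  have := A.G1 i j 0 (by omega)
  exact this.mono (by omega)

/-- the bispecial word has every return length as a period -/
theorem per (A : Code x N ℓ h b β X len D) (T : Bool) :
    Agr x (β 0) (β 0 + len T) (b - len T) := by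
  obtain ⟨j, hj, hT⟩ := A.inf T 1
  obtain ⟨j', rfl⟩ : ∃ j', j = j' + 1 := ⟨j - 1, by omega⟩
  have e := A.succ j'
  rw [hT] at e
  intro u hu
  have h1 := A.agrB 0 j' (len T + u) (by omega)
  have h2 := A.agrB 0 (j' + 1) u (by omega)
  rw [e] at h2
  rw [h2, show β 0 + len T + u = β 0 + (len T + u) by omega, h1]
  congr 1
  omega

theorem per' (A : Code x N ℓ h b β X len D) :
    Agr x ℓ (ℓ + len (X 0)) (h + b - len (X 0)) := by
  obtain ⟨j, hj, hT⟩ := A.inf (X 0) 1
  obtain ⟨j', rfl⟩ : ∃ j', j = j' + 1 := ⟨j - 1, by omega⟩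
  have e := A.succ j'
  rw [hT] at e
  have hh := A.hh
  have hG := A.G2 (j' + 1) 0 hj hT (by omega)
  intro u hu
  have h1 := hG (len (X 0) + u) (by omega)
  have h2 := hG u (by omega)
  have h3 := A.agrB j' (j' + 1) (len (X 0) - h + u) (by omega)
  rw [h2, show ℓ + len (X 0) + u = ℓ + (len (X 0) + u) by omega, h1]
  rw [show β (j' + 1) - h + u = β j' + (len (X 0) - h + u) by omega,
    show β (j' + 1) - h + (len (X 0) + u) = β (j' + 1) + (len (X 0) - h + u) by omega]
  exact h3

theorem core (A : Code x N ℓ h b β X len D) {δ K : ℝ} (hδ : 0 < δ) (hδ2 : δ ≤ 1 / 100)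
    (hK : 0 ≤ K)
    (hd : ∀ i j n : ℕ, i < j → Agr x i j n → (n : ℝ) ≤ (1 + δ) * j + K) :
    (b : ℝ) * (1 - 20 * δ) ≤ (4 + 40 * δ) * ((ℓ : ℝ) + D) + 20 * (K + 1) := by
  have hb0 := A.beta0
  have hsum : (len true : ℝ) + len false = b + 1 + D := by exact_mod_cast A.hsum
  have hb1 := A.succ 0
  rw [zero_add] at hb1
  have hnn : ∀ n : ℕ, (0 : ℝ) ≤ δ * n := fun n => mul_nonneg hδ.le (Nat.cast_nonneg n)
  have hnn' : ∀ n : ℕ, (0 : ℝ) ≤ n := fun n => Nat.cast_nonneg n
  have hlp := A.len_pos
  have hh : (h : ℝ) ≤ len (X 0) := by exact_mod_cast A.hh.le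
  have hsum2 : ∀ T : Bool, (len T : ℝ) + len (!T) = b + 1 + D := by
    intro T
    cases T
    · simpa [add_comm] using hsum
    · simpa using hsum
  -- inequality (C)
  have hC : ∀ T : Bool, (b : ℝ) - len T ≤ (1 + δ) * (ℓ + h + len T) + K := by
    intro T
    by_cases hle : len T ≤ b
    · have h1 := hd _ _ _ (by have := hlp T; omega) (A.per T)
      rw [Nat.cast_sub hle, hb0] at h1
      push_cast at h1
      exact h1
    · have h2 : (b : ℝ) ≤ len T := by exact_mod_cast (not_le.1 hle).le
      have h3 : 0 ≤ (1 + δ) * ((ℓ : ℝ) + h + len T) := by positivity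
      linarith
  by_cases h01 : X 0 = X 1
  · -- case 1
    have hG := A.G2 1 0 le_rfl h01.symm (by omega)
    have h1 := hd _ _ _ (by have := hlp (X 1); omega) hG
    have e1 : β 1 - h = ℓ + len (X 1) := by omega
    rw [e1] at h1
    have e2 : h + b + (β 0 - β 0) = h + b := by omega
    rw [e2] at h1
    push_cast at h1
    have hs := hsum2 (X 1)
    rw [h01] at hh
    rcases le_total (len (X 1)) (len (!(X 1))) with hle | hle
    · have hle' : (len (X 1) : ℝ) ≤ len (!(X 1)) := by exact_mod_cast hle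
      have := mul_le_mul_of_nonneg_left hle' hδ.le
      have hs' : δ * (len (X 1) : ℝ) + δ * len (!(X 1)) = δ * b + δ + δ * D := by
        rw [← mul_add, hs]; ring
      nlinarith [hnn ℓ, hnn D, hnn h, hnn b, hnn' ℓ, hnn' D, hnn' h, hnn' b]
    · have hle' : (len (!(X 1)) : ℝ) ≤ len (X 1) := by exact_mod_cast hle
      have h2 := hC (!(X 1))
      have hs' : δ * (len (X 1) : ℝ) + δ * len (!(X 1)) = δ * b + δ + δ * D := by
        rw [← mul_add, hs]; ring
      have h3 := mul_le_mul_of_nonneg_left hh hδ.le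
      nlinarith [hnn ℓ, hnn D, hnn h, hnn b, hnn (len (X 1)), hnn (len (!(X 1))), hnn' ℓ,
        hnn' D, hnn' h, hnn' b]
  · have hX1 : X 1 = !(X 0) := by
      revert h01
      cases X 0 <;> cases X 1 <;> simp
    have hs := hsum2 (X 0)
    rw [← hX1] at hs
    have hs' : δ * (len (X 0) : ℝ) + δ * len (X 1) = δ * b + δ + δ * D := by
      rw [← mul_add, hs]; ring
    have h3 := mul_le_mul_of_nonneg_left hh hδ.le
    rcases le_total (len (X 1)) (len (X 0)) with hle | hle
    · -- case 2
      have hle' : (len (X 1) : ℝ) ≤ len (X 0) := by exact_mod_cast hle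
      classical
      have hex : ∃ m, X (m + 1) = X 0 := by
        obtain ⟨m, h1, h2⟩ := A.inf (X 0) 1
        exact ⟨m - 1, by rw [Nat.sub_add_cancel h1]; exact h2⟩
      obtain ⟨m, hm⟩ : ∃ m, m = Nat.find hex := ⟨_, rfl⟩
      have hm1 : X (m + 1) = X 0 := by rw [hm]; exact Nat.find_spec hex
      have hmin : ∀ u < m, X (u + 1) = X 1 := by
        intro u hu
        rw [hm] at hu
        have := Nat.find_min hex hu
        rw [hX1]
        revert this
        cases X (u + 1) <;> cases X 0 <;> simp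
      have hm0 : 1 ≤ m := by
        rcases Nat.eq_zero_or_pos m with h0 | h0
        · rw [h0, zero_add] at hm1
          exact absurd hm1.symm h01
        · exact h0
      have hβ : ∀ u, u ≤ m → β u = ℓ + h + u * len (X 1) := by
        intro u
        induction u with
        | zero => intro _; rw [hb0]; ring
        | succ u ih =>
          intro hu
          rw [A.succ u, ih (by omega), hmin u (by omega)]
          ring
      have hβm1 : β (m + 1) = ℓ + h + m * len (X 1) + len (X 0) := by
        rw [A.succ m, hβ m le_rfl, hm1]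
      have hG1 := A.G1 0 1 (m - 1) (by
        intro u hu
        rw [show 0 + 1 + u = u + 1 by omega, show 1 + 1 + u = (u + 1) + 1 by omega,
          hmin u (by omega), hmin (u + 1) (by omega)])
      have h1 := hd _ _ _ (by have := hlp (X 1); omega) hG1
      rw [zero_add, hβ (m - 1) (by omega)] at h1
      have e1 : b + (ℓ + h + (m - 1) * len (X 1) - β 0) = b + (m - 1) * len (X 1) := by
        rw [hb0]; omega
      rw [e1, hb1, hb0] at h1
      have hG2 := A.G2 (m + 1) 0 (by omega) hm1 (by omega)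
      have h2 := hd _ _ _ (by have := hlp (X 0); rw [hβm1]; omega) hG2
      have e2 : β (m + 1) - h = ℓ + m * len (X 1) + len (X 0) := by rw [hβm1]; omega
      rw [e2, show h + b + (β 0 - β 0) = h + b by omega] at h2
      push_cast at h1 h2
      rw [Nat.cast_sub hm0] at h1
      push_cast at h1
      -- abbreviations
      obtain ⟨w, hw⟩ : ∃ w : ℝ, w = ((m : ℝ) - 1) * len (X 1) := ⟨_, rfl⟩
      have hw0 : 0 ≤ w := by
        rw [hw]
        have : (1 : ℝ) ≤ m := by exact_mod_cast hm0
        exact mul_nonneg (by linarith) (hnn' _)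
      have hmw : (m : ℝ) * len (X 1) = w + len (X 1) := by rw [hw]; ring
      rw [hmw] at h2
      rw [← hw] at h1
      have hwle : w ≤ 2 * ((ℓ : ℝ) + h + len (X 1)) + K := by
        have : (1 + δ) * ((ℓ : ℝ) + h + len (X 1)) ≤ 2 * (ℓ + h + len (X 1)) :=
          mul_le_mul_of_nonneg_right (by linarith) (by positivity)
        have := hnn' b
        linarith
      have h4 := mul_le_mul_of_nonneg_left hwle hδ.le
      have h5 := mul_le_mul_of_nonneg_left hle' hδ.le
      have h6 : δ * K ≤ K := by nlinarith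
      nlinarith [hnn ℓ, hnn D, hnn h, hnn b, hnn (len (X 1)), hnn (len (X 0)), hnn' ℓ,
        hnn' D, hnn' h, hnn' b]
    · -- case 3
      have hle' : (len (X 0) : ℝ) ≤ len (X 1) := by exact_mod_cast hle
      have hG1 := A.G1 0 1 0 (by omega)
      have h1 := hd _ _ _ (by have := hlp (X 1); omega) hG1
      rw [show b + (β (0 + 0) - β 0) = b by simp, hb1, hb0] at h1
      push_cast at h1
      have h2 : (h : ℝ) + b - len (X 0) ≤ (1 + δ) * (ℓ + len (X 0)) + K := by
        by_cases hc : len (X 0) ≤ h + b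
        · have h2 := hd _ _ _ (by have := hlp (X 0); omega) A.per'
          rw [Nat.cast_sub hc] at h2
          push_cast at h2
          exact h2
        · have h2 : (h : ℝ) + b ≤ len (X 0) := by exact_mod_cast (not_le.1 hc).le
          have h3 : 0 ≤ (1 + δ) * ((ℓ : ℝ) + len (X 0)) := by positivity
          linarith
      have h5 := mul_le_mul_of_nonneg_left hle' hδ.le
      nlinarith [hnn ℓ, hnn D, hnn h, hnn b, hnn (len (X 1)), hnn (len (X 0)), hnn' ℓ,
        hnn' D, hnn' h, hnn' b]

end Code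

end Pool.Agent.H886R2.Dig
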