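import Mathlib

/-!
# Digits, block complexity, irrationality exponent two
-/

namespace Pool.Agent.H886R2.Dig

/-- The `i`-th digit (`i = 0, 1, ...`) after the point of the base-`b` expansion of `x`. -/
noncomputable def digit (b : ℕ) (x : ℝ) (i : ℕ) : ℕ :=
  (⌊x * (b : ℝ) ^ (i + 1)⌋ % (b : ℤ)).toNat

/-- Block complexity: the number of distinct blocks of length `n` in the sequence `x`. -/
noncomputable def cplx {α : Type*} (x : ℕ → α) (n : ℕ) : ℕ :=
  (Set.range (fun i : ℕ => fun k : Fin n => x (i + k))).ncard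

/-- `ξ` has irrationality exponent (at most) two; in particular it is irrational. -/
def ExpTwo (ξ : ℝ) : Prop :=
  ∀ δ : ℝ, 0 < δ → ∃ Q : ℕ, ∀ q : ℕ, Q ≤ q → 1 ≤ q → ∀ p : ℤ,
    (q : ℝ) ^ (-(1 + δ)) ≤ |(q : ℝ) * ξ - p|

/-- Diophantine condition on an infinite word: a repeated factor whose second occurrence
starts at position `j` has length at most `(1 + δ) j + K`. -/
def Dio {α : Type*} (x : ℕ → α) : Prop :=
  ∀ δ : ℝ, 0 < δ → ∃ K : ℝ, ∀ i j n : ℕ, i < j → (∀ k < n, x (i + k) = x (j + k)) →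
    (n : ℝ) ≤ (1 + δ) * j + K

end Pool.Agent.H886R2.Dig
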