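import Pool.Agent.H886R2.Dig.Defs

/-!
# Digits: irrationality exponent two implies the Diophantine condition on the digit word
-/

namespace Pool.Agent.H886R2.Dig

theorem digit_lt {b : ℕ} (hb : 2 ≤ b) (x : ℝ) (i : ℕ) : digit b x i < b := by
  unfold digit
  have h1 : ⌊x * (b : ℝ) ^ (i + 1)⌋ % (b : ℤ) < b := Int.emod_lt_of_pos _ (by omega)
  have h2 : 0 ≤ ⌊x * (b : ℝ) ^ (i + 1)⌋ % (b : ℤ) := Int.emod_nonneg _ (by omega)
  omega

theorem floor_succ {b : ℕ} (hb : 2 ≤ b) (x : ℝ) (i : ℕ) :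
    ⌊x * (b : ℝ) ^ (i + 1)⌋ = b * ⌊x * (b : ℝ) ^ i⌋ + digit b x i := by
  have hb0 : (b : ℝ) ≠ 0 := by positivity
  have h2 : 0 ≤ ⌊x * (b : ℝ) ^ (i + 1)⌋ % (b : ℤ) := Int.emod_nonneg _ (by omega)
  have h1 : ⌊x * (b : ℝ) ^ i⌋ = ⌊x * (b : ℝ) ^ (i + 1)⌋ / (b : ℤ) := by
    rw [← Int.floor_div_natCast]
    congr 1
    rw [pow_succ]
    field_simp
  rw [h1]
  unfold digit
  rw [Int.toNat_of_nonneg h2]
  exact (Int.mul_ediv_add_emod _ _).symm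

theorem floor_block {b : ℕ} (hb : 2 ≤ b) (x : ℝ) (i j n : ℕ)
    (h : ∀ k < n, digit b x (i + k) = digit b x (j + k)) :
    ⌊x * (b : ℝ) ^ (i + n)⌋ - (b : ℤ) ^ n * ⌊x * (b : ℝ) ^ i⌋
      = ⌊x * (b : ℝ) ^ (j + n)⌋ - (b : ℤ) ^ n * ⌊x * (b : ℝ) ^ j⌋ := by
  induction n with
  | zero => simp
  | succ n ih =>
    have h1 := ih fun k hk => h k (by omega)
    have h2 := h n (by omega)
    rw [← add_assoc, ← add_assoc, floor_succ hb, floor_succ hb, h2, pow_succ]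
    linear_combination (b : ℤ) * h1

theorem dio_of_expTwo {x : ℝ} (hx : ExpTwo x) {b : ℕ} (hb : 2 ≤ b) : Dio (digit b x) := by
  intro δ hδ
  obtain ⟨Q, hQ⟩ := hx δ hδ
  obtain ⟨M, hMQ, hM1⟩ : ∃ M : ℕ, Q ≤ M ∧ 1 ≤ M := ⟨max Q 1, le_max_left _ _, le_max_right _ _⟩
  have hb1 : (1 : ℝ) < b := by exact_mod_cast (by omega : 1 < b)
  have hb0 : (0 : ℝ) < b := by linarith
  have hlb : 0 < Real.log b := Real.log_pos hb1
  have hMr : (1 : ℝ) ≤ M := by exact_mod_cast hM1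
  refine ⟨(2 + δ) * Real.log M / Real.log b, ?_⟩
  intro i j n hij hag
  have hfl := floor_block hb x i j n hag
  have hflr : (⌊x * (b : ℝ) ^ (i + n)⌋ : ℝ) - (b : ℝ) ^ n * ⌊x * (b : ℝ) ^ i⌋
      = ⌊x * (b : ℝ) ^ (j + n)⌋ - (b : ℝ) ^ n * ⌊x * (b : ℝ) ^ j⌋ := by
    exact_mod_cast hfl
  have hlt : b ^ i < b ^ j := Nat.pow_lt_pow_right (by omega) hij
  set q : ℕ := b ^ j - b ^ i with hq
  have hq1 : 1 ≤ q := by omega
  have hqr : (q : ℝ) = (b : ℝ) ^ j - (b : ℝ) ^ i := by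
    rw [hq, Nat.cast_sub hlt.le]; push_cast; ring
  have hqle : (q : ℝ) ≤ (b : ℝ) ^ j := by
    rw [hqr]; have : (0 : ℝ) ≤ (b : ℝ) ^ i := by positivity
    linarith
  have hq1r : (1 : ℝ) ≤ q := by exact_mod_cast hq1
  set p : ℤ := ⌊x * (b : ℝ) ^ j⌋ - ⌊x * (b : ℝ) ^ i⌋ with hp
  have hbn : (0 : ℝ) < (b : ℝ) ^ n := by positivity
  -- `b^n |q x - p| < 1`
  have h1 : (b : ℝ) ^ n * |(q : ℝ) * x - p| < 1 := by
    rw [show (b : ℝ) ^ n * |(q : ℝ) * x - p| = |(b : ℝ) ^ n * ((q : ℝ) * x - p)| by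
      rw [abs_mul, abs_of_pos hbn]]
    have e : (b : ℝ) ^ n * ((q : ℝ) * x - p)
        = (x * (b : ℝ) ^ (j + n) - ⌊x * (b : ℝ) ^ (j + n)⌋)
          - (x * (b : ℝ) ^ (i + n) - ⌊x * (b : ℝ) ^ (i + n)⌋) := by
      rw [hqr, hp, pow_add, pow_add]
      push_cast
      rw [pow_add, pow_add] at hflr
      linear_combination -hflr
    rw [e]
    have a1 := Int.floor_le (x * (b : ℝ) ^ (j + n))
    have a2 := Int.lt_floor_add_one (x * (b : ℝ) ^ (j + n))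
    have a3 := Int.floor_le (x * (b : ℝ) ^ (i + n))
    have a4 := Int.lt_floor_add_one (x * (b : ℝ) ^ (i + n))
    rw [abs_lt]
    constructor <;> linarith
  -- the Diophantine inequality for `M q`
  have h2 := hQ (M * q) (le_trans hMQ (Nat.le_mul_of_pos_right _ hq1))
    (Nat.one_le_iff_ne_zero.mpr (Nat.mul_ne_zero (by omega) (by omega))) (M * p)
  have h3 : |((M * q : ℕ) : ℝ) * x - ((M * p : ℤ) : ℝ)| = M * |(q : ℝ) * x - p| := by
    rw [show (M : ℝ) * |(q : ℝ) * x - p| = |(M : ℝ) * ((q : ℝ) * x - p)| by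
      rw [abs_mul, abs_of_pos (show (0 : ℝ) < M by linarith)]]
    congr 1
    push_cast; ring
  rw [h3] at h2
  have hMq : (0 : ℝ) < ((M * q : ℕ) : ℝ) := by
    push_cast; positivity
  -- combine
  have h4 : (b : ℝ) ^ n < M * ((M * q : ℕ) : ℝ) ^ (1 + δ) := by
    have hpos : (0 : ℝ) < ((M * q : ℕ) : ℝ) ^ (1 + δ) := Real.rpow_pos_of_pos hMq _
    rw [Real.rpow_neg hMq.le, inv_eq_one_div, div_le_iff₀ hpos] at h2
    have h5 : (b : ℝ) ^ n ≤ (b : ℝ) ^ n * (M * |(q : ℝ) * x - p| * ((M * q : ℕ) : ℝ) ^ (1 + δ)) :=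
      le_mul_of_one_le_right hbn.le h2
    have h6 : (b : ℝ) ^ n * (M * |(q : ℝ) * x - p| * ((M * q : ℕ) : ℝ) ^ (1 + δ))
        = ((b : ℝ) ^ n * |(q : ℝ) * x - p|) * (M * ((M * q : ℕ) : ℝ) ^ (1 + δ)) := by ring
    have h7 : 0 < (M : ℝ) * ((M * q : ℕ) : ℝ) ^ (1 + δ) := by positivity
    calc (b : ℝ) ^ n ≤ _ := h5
      _ = _ := h6
      _ < 1 * (M * ((M * q : ℕ) : ℝ) ^ (1 + δ)) := mul_lt_mul_of_pos_right h1 h7
      _ = _ := one_mul _
  have h5 : ((M * q : ℕ) : ℝ) ≤ M * (b : ℝ) ^ j := by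
    push_cast
    exact mul_le_mul_of_nonneg_left hqle (by linarith)
  have h6 : (b : ℝ) ^ n < M * (M * (b : ℝ) ^ j) ^ (1 + δ) := by
    refine lt_of_lt_of_le h4 (mul_le_mul_of_nonneg_left ?_ (by linarith))
    exact Real.rpow_le_rpow hMq.le h5 (by linarith)
  have hbj : (0 : ℝ) < (b : ℝ) ^ j := by positivity
  have hM0 : (0 : ℝ) < M := by linarith
  have h7 := Real.log_lt_log hbn h6
  rw [Real.log_pow, Real.log_mul (by positivity) (by positivity), Real.log_rpow (by positivity),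
    Real.log_mul (by positivity) (by positivity), Real.log_pow] at h7
  have h8 : (n : ℝ) * Real.log b ≤ ((1 + δ) * j) * Real.log b + (2 + δ) * Real.log M := by
    linarith [h7]
  have h9 : (1 + δ) * (j : ℝ) + (2 + δ) * Real.log M / Real.log b
      = (((1 + δ) * j) * Real.log b + (2 + δ) * Real.log M) / Real.log b := by
    field_simp
  rw [h9, le_div_iff₀ hlb]
  exact h8

end Pool.Agent.H886R2.Dig
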