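import Pool.Agent.H886R2.Dig.Defs

/-!
# The irrationality exponent of `e` is two

Task T1 of helper886. We use the integrals `∫ (x(1-x))^n / n! * exp x` over `[0,1]`.
-/

namespace Pool.Agent.H886R2.Dig

namespace ExpE

open MeasureTheory intervalIntegral

/-- the integrals -/
noncomputable def II (n : ℕ) : ℝ :=
  ∫ x in (0 : ℝ)..1, (x * (1 - x)) ^ n / (n.factorial : ℝ) * Real.exp x

theorem II_pos (n : ℕ) : 0 < II n := by
  unfold II
  apply intervalIntegral.intervalIntegral_pos_of_pos_on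
  · apply Continuous.intervalIntegrable
    fun_prop
  · intro x hx
    have h1 : 0 < x * (1 - x) := mul_pos hx.1 (by linarith [hx.2])
    have h2 : (0 : ℝ) < n.factorial := by exact_mod_cast n.factorial_pos
    positivity
  · norm_num

theorem II_zero : II 0 = Real.exp 1 - 1 := by
  unfold II
  simp

theorem II_one : II 1 = 3 - Real.exp 1 := by
  unfold II
  have h : ∀ x ∈ Set.uIcc (0 : ℝ) 1, HasDerivAt (fun x : ℝ => (-x ^ 2 + 3 * x - 3) * Real.exp x)
      ((x * (1 - x)) ^ 1 / ((1 : ℕ).factorial : ℝ) * Real.exp x) x := by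
    intro x _
    have h1 : HasDerivAt (fun x : ℝ => -x ^ 2 + 3 * x - 3) (-(2 * x) + 3) x := by
      have := (((hasDerivAt_pow 2 x).fun_neg).fun_add ((hasDerivAt_id' x).const_mul 3)).sub_const 3
      exact this.congr_deriv (by simp)
    have h2 := h1.fun_mul (Real.hasDerivAt_exp x)
    refine h2.congr_deriv ?_
    simp
    ring
  rw [intervalIntegral.integral_eq_sub_of_hasDerivAt h]
  · simp
    ring
  · apply Continuous.intervalIntegrable
    fun_prop

theorem II_rec (n : ℕ) : II (n + 2) + (4 * n + 6) * II (n + 1) = II n := by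
  have hf0 : (n.factorial : ℝ) ≠ 0 := by exact_mod_cast n.factorial_ne_zero
  have hf1 : ((n + 1).factorial : ℝ) = (n + 1) * n.factorial := by
    rw [Nat.factorial_succ]; push_cast; ring
  have hf2 : ((n + 2).factorial : ℝ) = (n + 2) * ((n + 1) * n.factorial) := by
    rw [Nat.factorial_succ, Nat.factorial_succ]; push_cast; ring
  have hn1 : (n : ℝ) + 1 ≠ 0 := by positivity
  have hn2 : (n : ℝ) + 2 ≠ 0 := by positivity
  have h : ∀ x ∈ Set.uIcc (0 : ℝ) 1, HasDerivAt (fun x : ℝ =>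
      ((x * (1 - x)) ^ (n + 2) / ((n + 2).factorial : ℝ) -
        (x * (1 - x)) ^ (n + 1) * (1 - 2 * x) / ((n + 1).factorial : ℝ)) * Real.exp x)
      ((x * (1 - x)) ^ (n + 2) / ((n + 2).factorial : ℝ) * Real.exp x +
        (4 * n + 6) * ((x * (1 - x)) ^ (n + 1) / ((n + 1).factorial : ℝ) * Real.exp x) -
        (x * (1 - x)) ^ n / (n.factorial : ℝ) * Real.exp x) x := by
    intro x _
    have hu : HasDerivAt (fun x : ℝ => x * (1 - x)) (1 - 2 * x) x := by
      have := (hasDerivAt_id' x).fun_mul ((hasDerivAt_id' x).const_sub 1)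
      exact this.congr_deriv (by ring)
    have hv : HasDerivAt (fun x : ℝ => 1 - 2 * x) (-2) x := by
      have := ((hasDerivAt_id x).const_mul 2).const_sub 1
      simpa using this
    have h1 := ((hu.fun_pow (n + 2)).div_const ((n + 2).factorial : ℝ)).fun_sub
      (((hu.fun_pow (n + 1)).fun_mul hv).div_const ((n + 1).factorial : ℝ))
    have h2 := h1.fun_mul (Real.hasDerivAt_exp x)
    refine h2.congr_deriv ?_
    simp only [Nat.add_sub_cancel, show n + 2 - 1 = n + 1 from rfl]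
    rw [hf1, hf2]
    push_cast
    field_simp
    ring
  have hint := intervalIntegral.integral_eq_sub_of_hasDerivAt h (by
    apply Continuous.intervalIntegrable
    fun_prop)
  rw [intervalIntegral.integral_sub (by apply Continuous.intervalIntegrable; fun_prop)
      (by apply Continuous.intervalIntegrable; fun_prop),
    intervalIntegral.integral_add (by apply Continuous.intervalIntegrable; fun_prop)
      (by apply Continuous.intervalIntegrable; fun_prop),
    intervalIntegral.integral_const_mul] at hint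
  simp only [sub_self, mul_zero, zero_mul, ne_eq, Nat.add_eq_zero_iff, one_ne_zero, and_false,
    not_false_eq_true, zero_pow, zero_div] at hint
  have h3 : II (n + 2) + (4 * n + 6) * II (n + 1) - II n = 0 := by
    unfold II
    simpa using hint
  linarith

/-- the denominators -/
def AA : ℕ → ℕ
  | 0 => 1
  | 1 => 1
  | n + 2 => (4 * n + 6) * AA (n + 1) + AA n

/-- the numerators -/
def BB : ℕ → ℕ
  | 0 => 1
  | 1 => 3
  | n + 2 => (4 * n + 6) * BB (n + 1) + BB n

theorem II_eq (n : ℕ) : II n = (-1) ^ n * (AA n * Real.exp 1 - BB n) ∧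
    II (n + 1) = (-1) ^ (n + 1) * (AA (n + 1) * Real.exp 1 - BB (n + 1)) := by
  induction n with
  | zero =>
    constructor
    · rw [II_zero]; simp [AA, BB]
    · rw [II_one]; simp [AA, BB]
  | succ n ih =>
    refine ⟨ih.2, ?_⟩
    have h := II_rec n
    have h1 : II (n + 1 + 1) = II n - (4 * n + 6) * II (n + 1) := by
      show II (n + 2) = _
      linarith
    rw [h1, ih.1, ih.2]
    show _ = (-1) ^ (n + 2) * ((((4 * n + 6) * AA (n + 1) + AA n : ℕ) : ℝ) * Real.exp 1 -
      (((4 * n + 6) * BB (n + 1) + BB n : ℕ) : ℝ))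
    push_cast
    ring

theorem det_eq (n : ℕ) : (AA n : ℝ) * BB (n + 1) - AA (n + 1) * BB n = 2 * (-1) ^ n := by
  induction n with
  | zero => simp [AA, BB]; norm_num
  | succ n ih =>
    show (AA (n + 1) : ℝ) * (((4 * n + 6) * BB (n + 1) + BB n : ℕ) : ℝ) -
      (((4 * n + 6) * AA (n + 1) + AA n : ℕ) : ℝ) * BB (n + 1) = _
    push_cast
    rw [pow_succ]
    linarith

theorem one_le_AA (n : ℕ) : 1 ≤ AA n ∧ 2 ^ n ≤ AA (n + 1) := by
  induction n with
  | zero => simp [AA]
  | succ n ih =>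
    refine ⟨Nat.one_le_two_pow.trans ih.2, ?_⟩
    show 2 ^ (n + 1) ≤ (4 * n + 6) * AA (n + 1) + AA n
    rw [pow_succ]
    nlinarith [ih.2]

theorem AA_le (n : ℕ) : AA n ≤ AA (n + 1) := by
  cases n with
  | zero => simp [AA]
  | succ n =>
    show AA (n + 1) ≤ (4 * n + 6) * AA (n + 1) + AA n
    nlinarith

theorem II_lt (n : ℕ) : AA (n + 1) * II n < 2 := by
  have h1 := (II_eq n).1
  have h2 := (II_eq n).2
  have h3 := det_eq n
  have h4 : (AA n : ℝ) * II (n + 1) + AA (n + 1) * II n = 2 := by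
    rw [h1, h2]
    have h5 : ((-1 : ℝ) ^ n) * (-1) ^ n = 1 := by
      rw [← pow_add, ← two_mul, pow_mul]; simp
    calc (AA n : ℝ) * ((-1) ^ (n + 1) * (AA (n + 1) * Real.exp 1 - BB (n + 1))) +
        AA (n + 1) * ((-1) ^ n * (AA n * Real.exp 1 - BB n)) =
        (-1) ^ n * ((AA n : ℝ) * BB (n + 1) - AA (n + 1) * BB n) := by rw [pow_succ]; ring
      _ = 2 * ((-1 : ℝ) ^ n * (-1) ^ n) := by rw [h3]; ring
      _ = 2 := by rw [h5]; ring
  have h6 : (1 : ℝ) ≤ AA n := by exact_mod_cast (one_le_AA n).1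
  have h7 : 0 < (AA n : ℝ) * II (n + 1) := mul_pos (by linarith) (II_pos _)
  linarith

/-- the key lower bound -/
theorem lower (q : ℕ) (hq : 1 ≤ q) (p : ℤ) (m : ℕ) (hA : 4 * q ≤ AA (m + 1)) :
    1 ≤ 2 * (AA (m + 1) : ℝ) * |(q : ℝ) * Real.exp 1 - p| := by
  have hq' : (1 : ℝ) ≤ q := by exact_mod_cast hq
  have key : ∀ j : ℕ, 4 * q ≤ AA (j + 1) → (AA j : ℤ) * p - BB j * q ≠ 0 →
      1 ≤ 2 * (AA j : ℝ) * |(q : ℝ) * Real.exp 1 - p| := by
    intro j hj hne
    have h1 : (1 : ℝ) ≤ |(AA j : ℝ) * p - BB j * q| := by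
      have : 1 ≤ |(AA j : ℤ) * p - BB j * q| := Int.one_le_abs hne
      exact_mod_cast this
    have h2 : (AA j : ℝ) * p - BB j * q =
        q * (AA j * Real.exp 1 - BB j) - AA j * (q * Real.exp 1 - p) := by ring
    have h3 : |(AA j : ℝ) * Real.exp 1 - BB j| = II j := by
      have h4 := (II_eq j).1
      rw [← abs_of_pos (II_pos j), h4, abs_mul, abs_pow, abs_neg, abs_one, one_pow, one_mul]
    have h5 : |(AA j : ℝ) * p - BB j * q| ≤
        q * II j + AA j * |(q : ℝ) * Real.exp 1 - p| := by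
      rw [h2]
      refine (abs_sub _ _).trans ?_
      rw [abs_mul, abs_mul, h3, Nat.abs_cast, Nat.abs_cast]
    have h6 : (q : ℝ) * II j ≤ 1 / 2 := by
      have h7 := II_lt j
      have h8 : (4 * q : ℝ) ≤ AA (j + 1) := by exact_mod_cast hj
      have h9 := II_pos j
      nlinarith
    linarith
  by_cases h0 : (AA m : ℤ) * p - BB m * q = 0
  · have h1 : (AA (m + 1) : ℤ) * p - BB (m + 1) * q ≠ 0 := by
      intro h1
      have h2 : (AA m : ℝ) * p - BB m * q = 0 := by exact_mod_cast h0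
      have h3 : (AA (m + 1) : ℝ) * p - BB (m + 1) * q = 0 := by exact_mod_cast h1
      have h4 := det_eq m
      have h5 : ((AA m : ℝ) * BB (m + 1) - AA (m + 1) * BB m) * q = 0 := by
        linear_combination (AA (m + 1) : ℝ) * h2 - AA m * h3
      rw [h4] at h5
      have h6 : ((-1 : ℝ) ^ m) ≠ 0 := pow_ne_zero _ (by norm_num)
      have h7 : (q : ℝ) ≠ 0 := by positivity
      have h8 : (2 : ℝ) * (-1) ^ m * q ≠ 0 := mul_ne_zero (mul_ne_zero two_ne_zero h6) h7
      exact h8 h5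
    exact key (m + 1) (hA.trans (AA_le _)) h1
  · have h1 := key m hA h0
    have h2 : (AA m : ℝ) ≤ AA (m + 1) := by exact_mod_cast AA_le m
    have h3 := abs_nonneg ((q : ℝ) * Real.exp 1 - p)
    nlinarith

end ExpE

open ExpE in
/-- The irrationality exponent of `e` is two. -/
theorem expTwo_exp_one : ExpTwo (Real.exp 1) := by
  intro δ hδ
  have h2 : (0 : ℝ) < Real.log 2 := Real.log_pos (by norm_num)
  have e1 := (isLittleO_log_rpow_atTop hδ).bound (c := Real.log 2 / 64) (by positivity)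
  have e2 := (tendsto_rpow_atTop hδ).eventually_ge_atTop 240
  obtain ⟨X, hX⟩ := Filter.eventually_atTop.1 (e1.and e2)
  refine ⟨⌈X⌉₊, fun q hQ hq p => ?_⟩
  have hq' : (1 : ℝ) ≤ q := by exact_mod_cast hq
  have hq0 : (0 : ℝ) < q := by linarith
  obtain ⟨hlog, hbig⟩ := hX q ((Nat.le_ceil X).trans (by exact_mod_cast hQ))
  have hlog0 : 0 ≤ Real.log q := Real.log_nonneg hq'
  have hp0 : 0 < (q : ℝ) ^ δ := Real.rpow_pos_of_pos hq0 _
  rw [Real.norm_of_nonneg hlog0, Real.norm_of_nonneg hp0.le] at hlog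
  have hex : ∃ n, 4 * q ≤ AA (n + 1) :=
    ⟨4 * q, (Nat.lt_two_pow_self).le.trans (one_le_AA _).2⟩
  classical
  obtain ⟨n, hn, hmin⟩ : ∃ n, 4 * q ≤ AA (n + 1) ∧ ∀ k < n, AA (k + 1) < 4 * q :=
    ⟨Nat.find hex, Nat.find_spec hex, fun k hk => not_le.1 (Nat.find_min hex hk)⟩
  have hlow := lower q hq p n hn
  obtain ⟨m, rfl⟩ : ∃ m, n = m + 1 := by
    cases n with
    | zero => simp [AA] at hn; omega
    | succ m => exact ⟨m, rfl⟩
  have hm := hmin m (by omega)
  have h2m : (2 : ℝ) ^ m ≤ 4 * q := by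
    have : 2 ^ m ≤ 4 * q := (one_le_AA m).2.trans hm.le
    exact_mod_cast this
  have hlogm : m * Real.log 2 ≤ 2 * Real.log 2 + Real.log q := by
    have h3 := Real.log_le_log (by positivity) h2m
    rw [Real.log_pow, Real.log_mul (by norm_num) hq0.ne',
      show (4 : ℝ) = 2 ^ 2 by norm_num, Real.log_pow] at h3
    push_cast at h3
    exact h3
  have hm' : (m : ℝ) ≤ 2 + q ^ δ / 64 := by
    have h4 : m * Real.log 2 ≤ (2 + (q : ℝ) ^ δ / 64) * Real.log 2 := by
      nlinarith
    exact le_of_mul_le_mul_right h4 h2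
  have hA2 : (AA (m + 1 + 1) : ℝ) ≤ (4 * m + 7) * (4 * q) := by
    have h5 : AA (m + 1 + 1) ≤ (4 * m + 7) * (4 * q) := by
      show (4 * m + 6) * AA (m + 1) + AA m ≤ _
      have := AA_le m
      nlinarith
    exact_mod_cast h5
  have hfin : 2 * (AA (m + 1 + 1) : ℝ) ≤ (q : ℝ) ^ (1 + δ) := by
    rw [Real.rpow_add hq0, Real.rpow_one]
    have h6 : (4 * (m : ℝ) + 7) * 8 ≤ q ^ δ := by nlinarith
    nlinarith
  rw [Real.rpow_neg hq0.le]
  have h7 : 0 < (q : ℝ) ^ (1 + δ) := Real.rpow_pos_of_pos hq0 _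
  rw [inv_le_iff_one_le_mul₀ h7]
  have h8 := abs_nonneg ((q : ℝ) * Real.exp 1 - p)
  nlinarith

end Pool.Agent.H886R2.Dig
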