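import Pool.Agent.H886R2.Dig.Core

namespace Pool.Agent.H886R2.Dig

variable {α : Type*}

theorem Dio.noPer {x : ℕ → α} (hD : Dio x) : NoPer x := by
  intro i j hij
  by_contra hcon
  push Not at hcon
  obtain ⟨K, hK⟩ := hD 1 one_pos
  obtain ⟨n, hn⟩ := exists_nat_gt ((1 + 1) * (j : ℝ) + K)
  have := hK i j n hij (fun k _ => hcon k)
  linarith

theorem level {x : ℕ → α} (hfin : (Set.range x).Finite) (hx : NoPer x) {δ K : ℝ} (hδ : 0 < δ)
    (hδ2 : δ ≤ 1 / 100) (hK : 0 ≤ K)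
    (hd : ∀ i j n : ℕ, i < j → Agr x i j n → (n : ℝ) ≤ (1 + δ) * j + K) (N : ℕ)
    (h1 : cplx x (N + 1) = cplx x N + 1) :
    (N : ℝ) * (1 - 20 * δ) ≤ (4 + 40 * δ) * ((cplx x N : ℝ) - N) + 20 * (K + 1) := by
  obtain ⟨R, c, hc1, hc2, hc3, hc4, _⟩ := special hfin N h1
  have S : Spec x N R c := ⟨hfin, hx, hc1, hc2, hc3, hc4⟩
  obtain ⟨t, X, len, T⟩ := S.ret
  obtain ⟨a, k, E⟩ := T.ends
  obtain ⟨ℓ, h, b, β, Y, D, A⟩ := E.code hfin hx
  have h2 := A.core hδ hδ2 hK hd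
  have h3 : (N : ℝ) ≤ b := by exact_mod_cast A.hN
  have h4 : (ℓ : ℝ) + N + D ≤ cplx x N := by exact_mod_cast A.hcplx
  have h5 : (N : ℝ) * (1 - 20 * δ) ≤ b * (1 - 20 * δ) :=
    mul_le_mul_of_nonneg_right h3 (by linarith)
  have h6 : (4 + 40 * δ) * ((ℓ : ℝ) + D) ≤ (4 + 40 * δ) * ((cplx x N : ℝ) - N) :=
    mul_le_mul_of_nonneg_left (by linarith) (by linarith)
  linarith

/-- **Main combinatorial theorem.** -/
theorem five_fourths {x : ℕ → α} (hfin : (Set.range x).Finite) (hD : Dio x) {ε : ℝ}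
    (hε : 0 < ε) : ∃ n0 : ℕ, ∀ n, n0 ≤ n → (5 / 4 - ε) * (n : ℝ) ≤ cplx x n := by
  have hx := hD.noPer
  obtain ⟨δ, hδ⟩ : ∃ δ, δ = min (1 / 100) (ε / 20) := ⟨_, rfl⟩
  have hδ0 : 0 < δ := by rw [hδ]; apply lt_min <;> positivity
  have hδ1 : δ ≤ 1 / 100 := by rw [hδ]; exact min_le_left _ _
  have hδ2 : δ ≤ ε / 20 := by rw [hδ]; exact min_le_right _ _
  obtain ⟨K0, hK0⟩ := hD δ hδ0
  obtain ⟨K, hKdef⟩ : ∃ K, K = max K0 0 := ⟨_, rfl⟩
  have hK : 0 ≤ K := by rw [hKdef]; exact le_max_right _ _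
  have hd : ∀ i j n : ℕ, i < j → Agr x i j n → (n : ℝ) ≤ (1 + δ) * j + K := by
    intro i j n hij h
    have := hK0 i j n hij h
    have h2 : K0 ≤ K := by rw [hKdef]; exact le_max_left _ _
    linarith
  have claim : ∀ n : ℕ, (n : ℝ) * (1 - 20 * δ) ≤
      (4 + 40 * δ) * ((cplx x n : ℝ) - n) + (20 * (K + 1) + 1) := by
    intro n
    induction n with
    | zero =>
      have : (0 : ℝ) ≤ cplx x 0 := Nat.cast_nonneg _
      have h2 : 0 ≤ (4 + 40 * δ) * ((cplx x 0 : ℝ) - (0 : ℕ)) := by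
        apply mul_nonneg (by linarith)
        simpa using this
      push_cast at h2 ⊢
      linarith
    | succ n ih =>
      have h1 := cplx_lt_succ hfin hx n
      rcases Nat.lt_or_ge (cplx x n + 1) (cplx x (n + 1)) with h2 | h2
      · have h3 : (cplx x n : ℝ) + 2 ≤ cplx x (n + 1) := by exact_mod_cast h2
        have h4 : (4 + 40 * δ) * ((cplx x n : ℝ) - n + 1) ≤
            (4 + 40 * δ) * ((cplx x (n + 1) : ℝ) - (n + 1 : ℕ)) := by
          apply mul_le_mul_of_nonneg_left _ (by linarith)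
          push_cast
          linarith
        push_cast at h4 ⊢
        linarith
      · have h3 : cplx x (n + 1) = cplx x n + 1 := by omega
        have h4 := level hfin hx hδ0 hδ1 hK hd n h3
        rw [h3]
        push_cast
        have h5 : (cplx x n : ℝ) + 1 - (n + 1) = cplx x n - n := by ring
        rw [h5]
        linarith
  obtain ⟨n0, hn0⟩ := exists_nat_gt ((20 * (K + 1) + 1) / ε)
  refine ⟨n0, fun n hn => ?_⟩
  have h1 := claim n
  have h2 : (20 * (K + 1) + 1) < n * ε := by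
    have h3 : (n0 : ℝ) ≤ n := by exact_mod_cast hn
    have h4 : (20 * (K + 1) + 1) / ε < n := lt_of_lt_of_le hn0 h3
    rwa [div_lt_iff₀ hε] at h4
  have hn : (0 : ℝ) ≤ n := Nat.cast_nonneg n
  have h5 : (n : ℝ) * δ ≤ n * (ε / 20) := mul_le_mul_of_nonneg_left hδ2 hn
  have hc : (0 : ℝ) ≤ cplx x n := Nat.cast_nonneg _
  -- (4+40δ) (5/4 - ε) n ≤ (4+40δ) cplx
  by_contra hcon
  push Not at hcon
  have h6 : (4 + 40 * δ) * (cplx x n : ℝ) < (4 + 40 * δ) * ((5 / 4 - ε) * n) :=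
    mul_lt_mul_of_pos_left hcon (by linarith)
  have h7 : 0 ≤ δ * (ε * n) := by positivity
  nlinarith

end Pool.Agent.H886R2.Dig
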