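import Pool.Agent.H886R2.Dig.Words

namespace Pool.Agent.H886R2.Dig

variable {α : Type*}

/-- data of the unique right special factor -/
structure Spec (x : ℕ → α) (N : ℕ) (R : ℕ → Prop) (c : ℕ → Bool) : Prop where
  fin : (Set.range x).Finite
  noper : NoPer x
  congr : ∀ i j, Agr x i j N → R i → R j
  det : ∀ i j, Agr x i j N → ¬ R i → Agr x i j (N + 1)
  rr : ∀ i j, R i → R j → Agr x i j N
  same : ∀ i j, R i → R j → c i = c j → Agr x i j (N + 1)

namespace Spec

variable {x : ℕ → α} {N : ℕ} {R : ℕ → Prop} {c : ℕ → Bool}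

theorem inf_type (S : Spec x N R c) (cc : Bool) (n0 : ℕ) : ∃ t, n0 ≤ t ∧ R t ∧ c t = cc := by
  by_contra hcon
  push Not at hcon
  apply not_det S.fin S.noper N n0
  intro i j hi hj h
  by_cases hR : R i
  · have hRj := S.congr i j h hR
    apply S.same i j hR hRj
    have h1 := hcon i hi hR
    have h2 := hcon j hj hRj
    revert h1 h2
    cases cc <;> cases c i <;> cases c j <;> simp
  · exact S.det i j h hR

/-- the next occurrence of the special factor -/
noncomputable def nxt (R : ℕ → Prop) (i : ℕ) : ℕ := sInf {t | i ≤ t ∧ R t}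

theorem nxt_spec (S : Spec x N R c) (i : ℕ) : i ≤ nxt R i ∧ R (nxt R i) := by
  obtain ⟨t, ht, hR, _⟩ := S.inf_type true i
  exact Nat.sInf_mem (s := {t | i ≤ t ∧ R t}) ⟨t, ht, hR⟩

theorem nxt_le {i t : ℕ} (h : i ≤ t) (hR : R t) : nxt R i ≤ t := Nat.sInf_le ⟨h, hR⟩

theorem not_R_of_lt {i u : ℕ} (h1 : i ≤ u) (h2 : u < nxt R i) : ¬ R u :=
  fun h => absurd (nxt_le h1 h) (by omega)

theorem sync (S : Spec x N R c) {i j : ℕ} (h : Agr x i j N) :
    ∀ m, (∀ u < m, ¬ R (i + u)) → Agr x i j (m + N) := by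
  intro m
  induction m with
  | zero => intro _; rw [zero_add]; exact h
  | succ m ih =>
    intro hm
    have h1 := ih (fun u hu => hm u (by omega))
    have h2 : Agr x (i + m) (j + m) N := Agr.shift m h1
    have h3 := S.det _ _ h2 (hm m (by omega))
    have h4 := Agr.append (h1.mono (by omega : m ≤ m + N)) h3
    rw [show m + 1 + N = m + (N + 1) by omega]
    exact h4

theorem dist (S : Spec x N R c) {i j : ℕ} (h : Agr x i j N) :
    nxt R i + j = nxt R j + i ∧ Agr x i j (nxt R i - i + N) := by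
  obtain ⟨hi1, hi2⟩ := S.nxt_spec i
  have h1 : Agr x i j (nxt R i - i + N) := by
    apply S.sync h
    intro u hu
    exact not_R_of_lt (R := R) (i := i) (by omega) (by omega)
  refine ⟨?_, h1⟩
  have hRj : R (j + (nxt R i - i)) := by
    apply S.congr _ _ (Agr.shift _ h1)
    rw [show i + (nxt R i - i) = nxt R i by omega]
    exact hi2
  have hle : nxt R j ≤ j + (nxt R i - i) := nxt_le (by omega) hRj
  obtain ⟨hj1, hj2⟩ := S.nxt_spec j
  have hge : nxt R i - i ≤ nxt R j - j := by
    by_contra hcon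
    have hlt : nxt R j - j < nxt R i - i := by omega
    have h2 : Agr x (i + (nxt R j - j)) (j + (nxt R j - j)) N :=
      Agr.shift _ (h1.mono (by omega))
    have h3 : R (i + (nxt R j - j)) := by
      apply S.congr _ _ h2.symm
      rw [show j + (nxt R j - j) = nxt R j by omega]
      exact hj2
    exact not_R_of_lt (R := R) (i := i) (by omega) (by omega) h3
  omega

theorem exists_len (S : Spec x N R c) : ∃ len : Bool → ℕ, (∀ b, 1 ≤ len b) ∧
    (∀ i, R i → nxt R (i + 1) = i + len (c i)) ∧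
    (∀ i j, R i → R j → c i = c j → Agr x i j (len (c i) + N)) := by
  have hex : ∀ b : Bool, ∃ t, R t ∧ c t = b := fun b => by
    obtain ⟨t, _, h1, h2⟩ := S.inf_type b 0
    exact ⟨t, h1, h2⟩
  choose s hsR hsc using hex
  have key : ∀ i j, R i → R j → c i = c j →
      nxt R (i + 1) + j = nxt R (j + 1) + i ∧ Agr x i j (nxt R (i + 1) - i + N) := by
    intro i j hi hj hc
    have h1 := S.same i j hi hj hc
    have h2 : Agr x (i + 1) (j + 1) N := Agr.shift 1 (by rw [add_comm 1 N]; exact h1)
    obtain ⟨h3, h4⟩ := S.dist h2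
    have hi1 := (S.nxt_spec (i + 1)).1
    have hj1 := (S.nxt_spec (j + 1)).1
    refine ⟨by omega, ?_⟩
    have h5 := Agr.append (h1.mono (by omega : 1 ≤ N + 1)) h4
    rw [show nxt R (i + 1) - i + N = 1 + (nxt R (i + 1) - (i + 1) + N) by omega]
    exact h5
  refine ⟨fun b => nxt R (s b + 1) - s b, ?_, ?_, ?_⟩
  · intro b
    have := (S.nxt_spec (s b + 1)).1
    show 1 ≤ nxt R (s b + 1) - s b
    omega
  · intro i hi
    obtain ⟨h1, _⟩ := key i (s (c i)) hi (hsR _) (hsc _).symm
    have h2 := (S.nxt_spec (s (c i) + 1)).1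
    have h3 := (S.nxt_spec (i + 1)).1
    show _ = i + (nxt R (s (c i) + 1) - s (c i))
    omega
  · intro i j hi hj hc
    obtain ⟨h1, h2⟩ := key i j hi hj hc
    obtain ⟨h3, _⟩ := key i (s (c i)) hi (hsR _) (hsc _).symm
    have h4 := (S.nxt_spec (s (c i) + 1)).1
    have h5 := (S.nxt_spec (i + 1)).1
    show Agr x i j (nxt R (s (c i) + 1) - s (c i) + N)
    rw [show nxt R (s (c i) + 1) - s (c i) = nxt R (i + 1) - i by omega]
    exact h2

end Spec

/-- occurrence times of the special factor -/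
noncomputable def tm (R : ℕ → Prop) : ℕ → ℕ
  | 0 => Spec.nxt R 0
  | m + 1 => Spec.nxt R (tm R m + 1)

/-- the outcome of the analysis of the return structure -/
structure Ret (x : ℕ → α) (N : ℕ) (t : ℕ → ℕ) (X : ℕ → Bool) (len : Bool → ℕ) : Prop where
  len_pos : ∀ b, 1 ≤ len b
  succ : ∀ m, t (m + 1) = t m + len (X m)
  agr0 : ∀ i j, Agr x (t i) (t j) N
  same : ∀ i j, X i = X j → Agr x (t i) (t j) (len (X i) + N)
  inf : ∀ (b : Bool) (n : ℕ), ∃ m, n ≤ m ∧ X m = b
  /-- positions with equal windows have the same distance to the next occurrence -/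
  cover : ∀ i, ∃ m, i ≤ t m ∧ (∀ m', i ≤ t m' → t m ≤ t m')
  dist : ∀ i j m m', Agr x i j N → i ≤ t m → (∀ l, i ≤ t l → t m ≤ t l) →
    j ≤ t m' → (∀ l, j ≤ t l → t m' ≤ t l) → t m + j = t m' + i ∧ Agr x i j (t m - i + N)

theorem Spec.ret {x : ℕ → α} {N : ℕ} {R : ℕ → Prop} {c : ℕ → Bool} (S : Spec x N R c) :
    ∃ (t : ℕ → ℕ) (X : ℕ → Bool) (len : Bool → ℕ), Ret x N t X len := by
  obtain ⟨len, hl1, hl2, hl3⟩ := S.exists_len
  have hR : ∀ m, R (tm R m) := by
    intro m
    cases m with
    | zero => exact (S.nxt_spec 0).2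
    | succ m => exact (S.nxt_spec _).2
  have hsucc : ∀ m, tm R (m + 1) = tm R m + len (c (tm R m)) := fun m => hl2 _ (hR m)
  have hge : ∀ m, m ≤ tm R m := by
    intro m
    induction m with
    | zero => omega
    | succ m ih => rw [hsucc]; have := hl1 (c (tm R m)); omega
  have hall : ∀ τ, R τ → ∃ m, τ = tm R m := by
    intro τ hτ
    by_contra hcon
    push Not at hcon
    have : ∀ m, tm R m < τ := by
      intro m
      induction m with
      | zero =>
        have h1 : tm R 0 ≤ τ := Spec.nxt_le (by omega) hτ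
        have := hcon 0
        omega
      | succ m ih =>
        have h1 : tm R (m + 1) ≤ τ := Spec.nxt_le (by omega) hτ
        have := hcon (m + 1)
        omega
    have h1 := this τ
    have h2 := hge τ
    omega
  have hnx : ∀ i m, i ≤ tm R m → (∀ l, i ≤ tm R l → tm R m ≤ tm R l) →
      tm R m = Spec.nxt R i := by
    intro i m h1 h2
    obtain ⟨h3, h4⟩ := S.nxt_spec i
    obtain ⟨l, hl⟩ := hall _ h4
    have h5 := h2 l (by omega)
    have h6 : Spec.nxt R i ≤ tm R m := Spec.nxt_le h1 (hR m)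
    omega
  refine ⟨tm R, fun m => c (tm R m), len, ?_⟩
  refine ⟨hl1, hsucc, fun i j => S.rr _ _ (hR i) (hR j), ?_, ?_, ?_, ?_⟩
  · intro i j h
    exact hl3 _ _ (hR i) (hR j) h
  · intro b n
    obtain ⟨τ, h1, h2, h3⟩ := S.inf_type b (tm R n)
    obtain ⟨m, rfl⟩ := hall τ h2
    refine ⟨m, ?_, h3⟩
    by_contra hcon
    have hmono : StrictMono (tm R) := strictMono_nat_of_lt_succ (fun m => by
      rw [hsucc]; have := hl1 (c (tm R m)); omega)
    have := hmono (show m < n by omega)
    omega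
  · intro i
    obtain ⟨h3, h4⟩ := S.nxt_spec i
    obtain ⟨m, hm⟩ := hall _ h4
    refine ⟨m, by omega, ?_⟩
    intro m' hm'
    rw [← hm]
    exact Spec.nxt_le hm' (hR m')
  · intro i j m m' h h1 h2 h3 h4
    have e1 := hnx i m h1 h2
    have e2 := hnx j m' h3 h4
    obtain ⟨h5, h6⟩ := S.dist h
    rw [e1, e2]
    exact ⟨h5, h6⟩

namespace Ret

variable {x : ℕ → α} {N : ℕ} {t : ℕ → ℕ} {X : ℕ → Bool} {len : Bool → ℕ}

theorem smono (T : Ret x N t X len) : StrictMono t :=
  strictMono_nat_of_lt_succ (fun m => by rw [T.succ]; have := T.len_pos (X m); omega)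

theorem fwd (T : Ret x N t X len) (i j : ℕ) : ∀ m, (∀ u < m, X (i + u) = X (j + u)) →
    t (i + m) + t j = t (j + m) + t i ∧ Agr x (t i) (t j) (t (i + m) - t i + N) := by
  intro m
  induction m with
  | zero =>
    intro _
    simp only [add_zero]
    refine ⟨by omega, ?_⟩
    rw [Nat.sub_self, zero_add]
    exact T.agr0 i j
  | succ m ih =>
    intro h
    obtain ⟨h1, h2⟩ := ih (fun u hu => h u (by omega))
    have h3 := h m (by omega)
    have h4 := T.same _ _ h3
    have e1 := T.succ (i + m)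
    have e2 := T.succ (j + m)
    have hmi : t i ≤ t (i + m) := T.smono.monotone (by omega)
    have hmj : t j ≤ t (j + m) := T.smono.monotone (by omega)
    rw [← h3] at e2
    refine ⟨by rw [← add_assoc, ← add_assoc, e1, e2]; omega, ?_⟩
    have h5 := Agr.append (i := t i) (j := t j) (u := t (i + m) - t i)
      (n := len (X (i + m)) + N) (h2.mono (by omega))
      (by
        rw [show t i + (t (i + m) - t i) = t (i + m) by omega,
          show t j + (t (i + m) - t i) = t (j + m) by omega]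
        exact h4)
    rw [show t (i + (m + 1)) - t i + N = t (i + m) - t i + (len (X (i + m)) + N) by
      rw [← add_assoc, e1]; omega]
    exact h5

/-- distance inside a return -/
theorem near (T : Ret x N t X len) {a u : ℕ} (hu : u < len (X a)) :
    t (a + 1) - u ≤ t (a + 1) ∧ ∀ l, t (a + 1) - u ≤ t l → t (a + 1) ≤ t l := by
  refine ⟨by omega, ?_⟩
  intro l hl
  have h1 := T.succ a
  by_contra hcon
  have : l < a + 1 := by
    by_contra h2
    exact hcon (T.smono.monotone (by omega))
  have : t l ≤ t a := T.smono.monotone (by omega)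
  omega

end Ret

end Pool.Agent.H886R2.Dig
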