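import Pool.Agent.H886R2.Dig.Struct

namespace Pool.Agent.H886R2.Dig

variable {α : Type*}

/-- choice of one return of each type -/
structure Ends (x : ℕ → α) (N : ℕ) (t : ℕ → ℕ) (X : ℕ → Bool) (len : Bool → ℕ)
    (a : Bool → ℕ) (k : ℕ) : Prop extends Ret x N t X len where
  ha : ∀ b, X (a b) = b
  hkt : ∀ b, k < len b
  hk : Agr x (t (a true + 1) - k) (t (a false + 1) - k) (k + N)
  hmax : ∀ v, k < v → v < len true → v < len false →
    ¬ Agr x (t (a true + 1) - v) (t (a false + 1) - v) N

theorem Ret.ends {x : ℕ → α} {N : ℕ} {t : ℕ → ℕ} {X : ℕ → Bool} {len : Bool → ℕ}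
    (T : Ret x N t X len) : ∃ a k, Ends x N t X len a k := by
  classical
  have h1 : ∀ b : Bool, ∃ m, X m = b := fun b => by
    obtain ⟨m, _, h⟩ := T.inf b 0
    exact ⟨m, h⟩
  choose a ha using h1
  let P : ℕ → Prop := fun v => v < len true ∧ v < len false ∧
    Agr x (t (a true + 1) - v) (t (a false + 1) - v) N
  have hP0 : P 0 := ⟨T.len_pos _, T.len_pos _, T.agr0 _ _⟩
  have hPk : P (Nat.findGreatest P (len true)) := Nat.findGreatest_spec (P := P) (m := 0)
    (by omega) hP0
  refine ⟨a, Nat.findGreatest P (len true), ?_⟩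
  have hkt : ∀ b, Nat.findGreatest P (len true) < len b := by
    intro b
    cases b
    · exact hPk.2.1
    · exact hPk.1
  refine { toRet := T, ha := ha, hkt := hkt, hk := ?_, hmax := ?_ }
  · have h2 := T.near (a := a true) (u := Nat.findGreatest P (len true))
      (by rw [ha]; exact hkt _)
    have h3 := T.near (a := a false) (u := Nat.findGreatest P (len true))
      (by rw [ha]; exact hkt _)
    have h4 := (T.dist _ _ _ _ hPk.2.2 h2.1 h2.2 h3.1 h3.2).2
    have h5 := T.succ (a true)
    have h6 := hkt true
    rw [ha] at h5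
    rw [show t (a true + 1) - (t (a true + 1) - Nat.findGreatest P (len true)) =
      Nat.findGreatest P (len true) by omega] at h4
    exact h4
  · intro v hv h2 h3 h4
    exact Nat.findGreatest_is_greatest (P := P) hv (by omega) ⟨h2, h3, h4⟩

namespace Ends

variable {x : ℕ → α} {N : ℕ} {t : ℕ → ℕ} {X : ℕ → Bool} {len : Bool → ℕ} {a : Bool → ℕ} {k : ℕ}

/-- the end of the `i`-th return looks like the chosen return of the same type -/
theorem like (E : Ends x N t X len a k) (i u : ℕ) (hu : u ≤ len (X i)) :
    Agr x (t (i + 1) - u) (t (a (X i) + 1) - u) (u + N) := by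
  have h1 := E.same i (a (X i)) (E.ha _).symm
  have h2 := Agr.shift (len (X i) - u) (n := u + N)
    (by rw [show len (X i) - u + (u + N) = len (X i) + N by omega]; exact h1)
  have e1 := E.succ i
  have e2 := E.succ (a (X i))
  rw [E.ha] at e2
  rw [show t (i + 1) - u = t i + (len (X i) - u) by omega,
    show t (a (X i) + 1) - u = t (a (X i)) + (len (X i) - u) by omega]
  exact h2

theorem back (E : Ends x N t X len a k) (i : ℕ) :
    Agr x (t (i + 1) - k) (t (a true + 1) - k) (k + N) := by
  have h1 := E.like i k (E.hkt _).le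
  cases h : X i with
  | true => rw [h] at h1; exact h1
  | false => rw [h] at h1; exact h1.trans E.hk.symm

theorem back2 (E : Ends x N t X len a k) (i j : ℕ) :
    Agr x (t (i + 1) - k) (t (j + 1) - k) (k + N) := (E.back i).trans (E.back j).symm

/-- the recurrent windows -/
def C (x : ℕ → α) (N : ℕ) (t : ℕ → ℕ) (len : Bool → ℕ) (a : Bool → ℕ) (k : ℕ) :
    Set (Fin N → α) :=
  (fun u => win x N (t (a true + 1) - u)) '' Set.Iio (len true) ∪
    (fun u => win x N (t (a false + 1) - u)) '' Set.Ioo k (len false)

theorem dist2 (E : Ends x N t X len a k) {b b' : Bool} {u v : ℕ} (hu : u < len b)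
    (hv : v < len b') (h : Agr x (t (a b + 1) - u) (t (a b' + 1) - v) N) : u = v := by
  have h2 := E.near (a := a b) (u := u) (by rw [E.ha]; exact hu)
  have h3 := E.near (a := a b') (u := v) (by rw [E.ha]; exact hv)
  have h4 := (E.dist _ _ _ _ h h2.1 h2.2 h3.1 h3.2).1
  have e1 := E.succ (a b)
  have e2 := E.succ (a b')
  rw [E.ha] at e1 e2
  omega

theorem card_C (E : Ends x N t X len a k) :
    (C x N t len a k).ncard + (k + 1) = len true + len false := by
  classical
  have h1 : ((fun u => win x N (t (a true + 1) - u)) '' Set.Iio (len true)).ncard = len true := by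
    rw [Set.InjOn.ncard_image]
    · rw [← Finset.coe_Iio, Set.ncard_coe_finset, Nat.card_Iio]
    · intro u hu v hv h
      exact E.dist2 hu hv (win_eq_iff.1 h)
  have h2 : ((fun u => win x N (t (a false + 1) - u)) '' Set.Ioo k (len false)).ncard =
      len false - k - 1 := by
    rw [Set.InjOn.ncard_image]
    · rw [← Finset.coe_Ioo, Set.ncard_coe_finset, Nat.card_Ioo]
    · intro u hu v hv h
      exact E.dist2 hu.2 hv.2 (win_eq_iff.1 h)
  have h3 : Disjoint ((fun u => win x N (t (a true + 1) - u)) '' Set.Iio (len true))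
      ((fun u => win x N (t (a false + 1) - u)) '' Set.Ioo k (len false)) := by
    rw [Set.disjoint_left]
    rintro w ⟨u, hu, rfl⟩ ⟨v, hv, hw⟩
    have h4 : Agr x (t (a true + 1) - u) (t (a false + 1) - v) N := (win_eq_iff.1 hw).symm
    have h5 := E.dist2 hu hv.2 h4
    subst h5
    exact E.hmax u hv.1 hu hv.2 h4
  rw [C, Set.ncard_union_eq h3 ((Set.finite_Iio _).image _) ((Set.finite_Ioo _ _).image _),
    h1, h2]
  have := E.hkt false
  omega

/-- every window starting after the first occurrence is recurrent -/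
theorem mem_C (E : Ends x N t X len a k) {i : ℕ} (hi : t 0 ≤ i) :
    win x N i ∈ C x N t len a k := by
  obtain ⟨m, h1, h2⟩ := E.cover i
  cases m with
  | zero =>
    left
    refine ⟨0, E.len_pos _, ?_⟩
    have : i = t 0 := by omega
    rw [this]
    exact win_eq_iff.2 (E.agr0 _ _)
  | succ m =>
    have h3 : t m < i := by
      by_contra hcon
      have := h2 m (by omega)
      have := E.smono (show m < m + 1 by omega)
      omega
    have e1 := E.succ m
    obtain ⟨u, hu⟩ : ∃ u, u = t (m + 1) - i := ⟨_, rfl⟩
    have hu2 : u < len (X m) := by omega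
    have h4 := E.like m u hu2.le
    rw [show t (m + 1) - u = i by omega] at h4
    have h5 : Agr x i (t (a (X m) + 1) - u) N := h4.mono (by omega)
    cases hX : X m with
    | true =>
      rw [hX] at h5 hu2
      left
      exact ⟨u, hu2, win_eq_iff.2 h5.symm⟩
    | false =>
      rw [hX] at h5 hu2
      by_cases hk : k < u
      · right
        exact ⟨u, ⟨hk, hu2⟩, win_eq_iff.2 h5.symm⟩
      · left
        refine ⟨u, by have := E.hkt true; exact lt_of_le_of_lt (by omega) this, ?_⟩
        apply win_eq_iff.2
        apply Agr.trans _ h5.symm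
        have h6 := Agr.shift (k - u) (n := u + N)
          (by rw [show k - u + (u + N) = k + N by omega]; exact E.hk)
        have h7 := E.hkt true
        have h8 := E.hkt false
        have e2 := E.succ (a true)
        have e3 := E.succ (a false)
        rw [E.ha] at e2 e3
        rw [show t (a true + 1) - k + (k - u) = t (a true + 1) - u by omega,
          show t (a false + 1) - k + (k - u) = t (a false + 1) - u by omega] at h6
        exact h6.mono (by omega)

theorem C_ge (E : Ends x N t X len a k) (hfin : (Set.range x).Finite) (hx : NoPer x) :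
    N + 1 ≤ (C x N t len a k).ncard := by
  have hy1 : (Set.range (fun i => x (t 0 + i))).Finite := by
    apply hfin.subset
    rintro _ ⟨i, rfl⟩
    exact ⟨_, rfl⟩
  have hy2 : NoPer (fun i => x (t 0 + i)) := by
    intro i j hij
    obtain ⟨n, hn⟩ := hx (t 0 + i) (t 0 + j) (by omega)
    refine ⟨n, ?_⟩
    show x (t 0 + (i + n)) ≠ x (t 0 + (j + n))
    rw [← add_assoc, ← add_assoc]
    exact hn
  have h1 := succ_le_cplx hy1 hy2 N
  refine h1.trans ?_
  rw [cplx_eq]
  apply Set.ncard_le_ncard
  · rintro _ ⟨i, rfl⟩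
    have h2 := E.mem_C (i := t 0 + i) (by omega)
    have h3 : win (fun i => x (t 0 + i)) N i = win x N (t 0 + i) := by
      funext u
      show x (t 0 + (i + u)) = x (t 0 + i + u)
      rw [add_assoc]
    rw [h3]
    exact h2
  · exact ((Set.finite_Iio _).image _).union ((Set.finite_Ioo _ _).image _)

end Ends

/-- final description of the word -/
structure Code (x : ℕ → α) (N ℓ h b : ℕ) (β : ℕ → ℕ) (X : ℕ → Bool) (len : Bool → ℕ)
    (D : ℕ) : Prop where
  hN : N ≤ b
  beta0 : β 0 = ℓ + h
  succ : ∀ i, β (i + 1) = β i + len (X (i + 1))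
  len_pos : ∀ c, 1 ≤ len c
  hh : h < len (X 0)
  inf : ∀ (c : Bool) (n : ℕ), ∃ m, n ≤ m ∧ X m = c
  G1 : ∀ i j m, (∀ u < m, X (i + 1 + u) = X (j + 1 + u)) →
    Agr x (β i) (β j) (b + (β (i + m) - β i))
  G2 : ∀ j m, 1 ≤ j → X j = X 0 → (∀ u < m, X (1 + u) = X (j + 1 + u)) →
    Agr x ℓ (β j - h) (h + b + (β m - β 0))
  hD : 1 ≤ D
  hsum : len true + len false = b + 1 + D
  hcplx : ℓ + N + D ≤ cplx x N

theorem Ends.code {x : ℕ → α} {N : ℕ} {t : ℕ → ℕ} {X : ℕ → Bool} {len : Bool → ℕ}
    {a : Bool → ℕ} {k : ℕ} (E : Ends x N t X len a k) (hfin : (Set.range x).Finite)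
    (hx : NoPer x) : ∃ ℓ h b β Y D, Code x N ℓ h b β Y len D := by
  classical
  have hCfin : (Ends.C x N t len a k).Finite :=
    ((Set.finite_Iio _).image _).union ((Set.finite_Ioo _ _).image _)
  have hex : ∃ i, win x N i ∈ Ends.C x N t len a k := ⟨t 0, E.mem_C le_rfl⟩
  obtain ⟨ℓ, hℓ⟩ : ∃ ℓ, ℓ = Nat.find hex := ⟨_, rfl⟩
  have hℓC : win x N ℓ ∈ Ends.C x N t len a k := by rw [hℓ]; exact Nat.find_spec hex
  have hℓmin : ∀ i < ℓ, win x N i ∉ Ends.C x N t len a k := by
    intro i hi
    rw [hℓ] at hi
    exact Nat.find_min hex hi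
  have hℓt : ℓ ≤ t 0 := by rw [hℓ]; exact Nat.find_min' hex (E.mem_C le_rfl)
  have ht0 : ∀ l, t 0 ≤ t l := fun l => E.smono.monotone (by omega)
  -- complexity
  have hcp : ℓ + (Ends.C x N t len a k).ncard ≤ cplx x N := by
    have h1 : ((win x N) '' Set.Iio ℓ).ncard = ℓ := by
      rw [Set.InjOn.ncard_image]
      · rw [← Finset.coe_Iio, Set.ncard_coe_finset, Nat.card_Iio]
      · intro i hi j hj h
        have hi' : i < ℓ := hi
        have hj' : j < ℓ := hj
        have h4 := (E.dist i j 0 0 (win_eq_iff.1 h) (by omega) (fun l _ => ht0 l) (by omega)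
          (fun l _ => ht0 l)).1
        omega
    have h2 : Disjoint ((win x N) '' Set.Iio ℓ) (Ends.C x N t len a k) := by
      rw [Set.disjoint_left]
      rintro _ ⟨i, hi, rfl⟩ h
      exact hℓmin i hi h
    have h3 := Set.ncard_union_eq h2 ((Set.finite_Iio _).image _) hCfin
    rw [h1] at h3
    rw [← h3, cplx_eq]
    apply Set.ncard_le_ncard _ (range_win_finite hfin N)
    rintro _ (⟨i, _, rfl⟩ | (⟨u, _, rfl⟩ | ⟨u, _, rfl⟩))
    · exact ⟨i, rfl⟩
    · exact ⟨_, rfl⟩
    · exact ⟨_, rfl⟩
  have hCge := E.C_ge hfin hx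
  have hCcard := E.card_C
  -- the initial type
  obtain ⟨γ, hγ1, hγ2⟩ : ∃ γ, t 0 - ℓ < len γ ∧
      Agr x ℓ (t (a γ + 1) - (t 0 - ℓ)) (t 0 - ℓ + N) := by
    have key : ∀ (b : Bool) (u : ℕ), u < len b → win x N (t (a b + 1) - u) = win x N ℓ →
        t 0 - ℓ < len b ∧ Agr x ℓ (t (a b + 1) - (t 0 - ℓ)) (t 0 - ℓ + N) := by
      intro b u hu hw
      have h1 : Agr x ℓ (t (a b + 1) - u) N := (win_eq_iff.1 hw).symm
      have h2 := E.near (a := a b) (u := u) (by rw [E.ha]; exact hu)
      obtain ⟨h3, h4⟩ := E.dist _ _ 0 _ h1 hℓt (fun l _ => ht0 l) h2.1 h2.2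
      have e1 := E.succ (a b)
      rw [E.ha] at e1
      have : u = t 0 - ℓ := by omega
      subst this
      exact ⟨hu, h4⟩
    rcases hℓC with ⟨u, hu, hw⟩ | ⟨u, hu, hw⟩
    · exact ⟨true, key true u hu hw⟩
    · exact ⟨false, key false u hu.2 hw⟩
  obtain ⟨h', hh'⟩ : ∃ h', h' = t 0 - ℓ := ⟨_, rfl⟩
  rw [← hh'] at hγ1 hγ2
  -- matching with later returns
  have F3 : ∀ j, X j = γ → Agr x ℓ (t (j + 1) - h') (h' + N) := by
    intro j hj
    have h1 := E.like j h' (by rw [hj]; exact hγ1.le)
    rw [hj] at h1
    exact hγ2.trans h1.symm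
  have F3k : h' ≤ k → ∀ j, Agr x ℓ (t (j + 1) - h') (h' + N) := by
    intro hk j
    have h1 : Agr x (t (a γ + 1) - h') (t (j + 1) - h') (h' + N) := by
      have h2 := Agr.shift (k - h') (n := h' + N)
        (by rw [show k - h' + (h' + N) = k + N by omega]; exact E.back2 (a γ) j)
      have h3 := E.hkt γ
      have h4 := E.hkt (X j)
      have e1 := E.succ (a γ)
      have e2 := E.succ j
      rw [E.ha] at e1
      rw [show t (a γ + 1) - k + (k - h') = t (a γ + 1) - h' by omega,
        show t (j + 1) - k + (k - h') = t (j + 1) - h' by omega] at h2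
      exact h2
    exact hγ2.trans h1
  have F3g : k ≤ h' → ∀ j, Agr x (t 0 - k) (t (j + 1) - k) (k + N) := by
    intro hk j
    have h2 := Agr.shift (h' - k) (n := k + N)
      (by rw [show h' - k + (k + N) = h' + N by omega]; exact hγ2)
    have e1 := E.succ (a γ)
    rw [E.ha] at e1
    rw [show ℓ + (h' - k) = t 0 - k by omega,
      show t (a γ + 1) - h' + (h' - k) = t (a γ + 1) - k by omega] at h2
    exact h2.trans (E.back2 (a γ) j)
  by_cases hcase : k ≤ h'
  · -- case A
    have hkt0 : k ≤ t 0 := by omega
    have htk : ∀ i, k ≤ t i := fun i => hkt0.trans (ht0 i)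
    refine ⟨ℓ, h' - k, N + k, fun i => t i - k,
      fun i => if i = 0 then γ else X (i - 1), (Ends.C x N t len a k).ncard - N, ?_⟩
    have hall : ∀ i j, Agr x (t i - k) (t j - k) (k + N) := by
      intro i j
      cases i with
      | zero =>
        cases j with
        | zero => exact Agr.refl _ _ _
        | succ j => exact F3g hcase j
      | succ i =>
        cases j with
        | zero => exact (F3g hcase i).symm
        | succ j => exact E.back2 i j
    refine ⟨by omega, by show t 0 - k = ℓ + (h' - k); omega, ?_, E.len_pos, ?_, ?_, ?_, ?_,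
      by omega, by omega, by omega⟩
    · intro i
      have e1 := E.succ i
      have := htk i
      simp only [Nat.add_eq_zero_iff, one_ne_zero, and_false, if_false, Nat.add_sub_cancel]
      omega
    · simp only [if_true]
      omega
    · intro c n
      obtain ⟨m, h1, h2⟩ := E.inf c n
      refine ⟨m + 1, by omega, ?_⟩
      simp only [Nat.add_eq_zero_iff, one_ne_zero, and_false, if_false, Nat.add_sub_cancel]
      exact h2
    · intro i j m hm
      have hm' : ∀ u < m, X (i + u) = X (j + u) := by
        intro u hu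
        have := hm u hu
        rw [if_neg (by omega), if_neg (by omega)] at this
        rw [show i + 1 + u - 1 = i + u by omega, show j + 1 + u - 1 = j + u by omega] at this
        exact this
      have h1 := (E.fwd i j m hm').2
      have h2 := htk i
      have h3 := htk j
      have h4 : t i ≤ t (i + m) := E.smono.monotone (by omega)
      have h5 := Agr.append (i := t i - k) (j := t j - k) (u := k) (n := t (i + m) - t i + N)
        ((hall i j).mono (by omega))
        (by rw [show t i - k + k = t i by omega, show t j - k + k = t j by omega]; exact h1)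
      show Agr x (t i - k) (t j - k) (N + k + (t (i + m) - k - (t i - k)))
      rw [show N + k + (t (i + m) - k - (t i - k)) = k + (t (i + m) - t i + N) by omega]
      exact h5
    · intro j m hj hXj hm
      rw [if_neg (by omega), if_pos rfl] at hXj
      obtain ⟨j', rfl⟩ : ∃ j', j = j' + 1 := ⟨j - 1, by omega⟩
      rw [Nat.add_sub_cancel] at hXj
      have hm' : ∀ u < m, X (0 + u) = X (j' + 1 + u) := by
        intro u hu
        have := hm u hu
        rw [if_neg (by omega), if_neg (by omega)] at this
        rw [show 1 + u - 1 = 0 + u by omega, show j' + 1 + 1 + u - 1 = j' + 1 + u by omega] at this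
        exact this
      have h1 := (E.fwd 0 (j' + 1) m hm').2
      have h2 := F3 j' hXj
      have e1 := E.succ j'
      rw [hXj] at e1
      rw [zero_add] at h1
      have h5 := Agr.append (i := ℓ) (j := t (j' + 1) - h') (u := h') (n := t m - t 0 + N)
        (h2.mono (by omega))
        (by
          rw [show ℓ + h' = t 0 by omega,
            show t (j' + 1) - h' + h' = t (j' + 1) by omega]
          exact h1)
      have h6 := htk m
      have h7 := ht0 m
      show Agr x ℓ (t (j' + 1) - k - (h' - k)) (h' - k + (N + k) + (t m - k - (t 0 - k)))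
      rw [show t (j' + 1) - k - (h' - k) = t (j' + 1) - h' by omega,
        show h' - k + (N + k) + (t m - k - (t 0 - k)) = h' + (t m - t 0 + N) by omega]
      exact h5
  · -- case B
    have hlt : h' < k := by omega
    have hkt : ∀ i, k ≤ t (i + 1) := by
      intro i
      have e1 := E.succ i
      have := E.hkt (X i)
      omega
    refine ⟨ℓ, h' + len (X 0) - k, N + k, fun i => t (i + 1) - k, X,
      (Ends.C x N t len a k).ncard - N, ?_⟩
    have hk0 := E.hkt (X 0)
    have e0 := E.succ 0
    refine ⟨by omega, by show t (0 + 1) - k = ℓ + (h' + len (X 0) - k); rw [e0]; omega, ?_,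
      E.len_pos, by omega, E.inf, ?_, ?_, by omega, by omega, by omega⟩
    · intro i
      have e1 := E.succ (i + 1)
      have := hkt i
      show t (i + 1 + 1) - k = t (i + 1) - k + len (X (i + 1))
      omega
    · intro i j m hm
      have h1 := (E.fwd (i + 1) (j + 1) m hm).2
      have h2 := hkt i
      have h3 := hkt j
      have h4 : t (i + 1) ≤ t (i + 1 + m) := E.smono.monotone (by omega)
      have h5 := Agr.append (i := t (i + 1) - k) (j := t (j + 1) - k) (u := k)
        (n := t (i + 1 + m) - t (i + 1) + N)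
        ((E.back2 i j).mono (by omega))
        (by
          rw [show t (i + 1) - k + k = t (i + 1) by omega,
            show t (j + 1) - k + k = t (j + 1) by omega]
          exact h1)
      show Agr x (t (i + 1) - k) (t (j + 1) - k) (N + k + (t (i + m + 1) - k - (t (i + 1) - k)))
      rw [show i + m + 1 = i + 1 + m by omega,
        show N + k + (t (i + 1 + m) - k - (t (i + 1) - k)) =
          k + (t (i + 1 + m) - t (i + 1) + N) by omega]
      exact h5
    · intro j m hj hXj hm
      obtain ⟨j', rfl⟩ : ∃ j', j = j' + 1 := ⟨j - 1, by omega⟩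
      have hm' : ∀ u < m + 1, X (0 + u) = X (j' + 1 + u) := by
        intro u hu
        cases u with
        | zero => simpa using hXj.symm
        | succ u =>
          have := hm u (by omega)
          rw [show 0 + (u + 1) = 1 + u by omega, show j' + 1 + (u + 1) = j' + 1 + 1 + u by omega]
          exact this
      have h1 := (E.fwd 0 (j' + 1) (m + 1) hm').2
      have h2 := F3k hlt.le j'
      have e1 := E.succ j'
      have e2 := E.succ (j' + 1)
      rw [hXj] at e2
      have hkj := E.hkt (X j')
      rw [zero_add] at h1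
      have h5 := Agr.append (i := ℓ) (j := t (j' + 1) - h') (u := h') (n := t (m + 1) - t 0 + N)
        (h2.mono (by omega))
        (by
          rw [show ℓ + h' = t 0 by omega,
            show t (j' + 1) - h' + h' = t (j' + 1) by omega]
          exact h1)
      have h6 := hkt m
      have h7 : t (0 + 1) ≤ t (m + 1) := E.smono.monotone (by omega)
      have h8 := hkt 0
      rw [e0] at h7 h8
      show Agr x ℓ (t (j' + 1 + 1) - k - (h' + len (X 0) - k))
        (h' + len (X 0) - k + (N + k) + (t (m + 1) - k - (t (0 + 1) - k)))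
      rw [e2, e0, show t (j' + 1) + len (X 0) - k - (h' + len (X 0) - k) = t (j' + 1) - h' by omega,
        show h' + len (X 0) - k + (N + k) + (t (m + 1) - k - (t 0 + len (X 0) - k)) =
          h' + (t (m + 1) - t 0 + N) by omega]
      exact h5

end Pool.Agent.H886R2.Dig
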