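import Pool.Agent.H886R2.Dig.Defs

namespace Pool.Agent.H886R2.Dig

variable {α : Type*}

/-- windows of length `n` at `i` and `j` agree -/
def Agr (x : ℕ → α) (i j n : ℕ) : Prop := ∀ k < n, x (i + k) = x (j + k)

/-- the window of length `n` at `i` -/
def win (x : ℕ → α) (n i : ℕ) : Fin n → α := fun k => x (i + k)

/-- no two suffixes of the word agree -/
def NoPer (x : ℕ → α) : Prop := ∀ i j, i < j → ∃ n, x (i + n) ≠ x (j + n)

theorem win_eq_iff {x : ℕ → α} {n i j : ℕ} : win x n i = win x n j ↔ Agr x i j n := by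
  constructor
  · intro h k hk
    exact congrFun h ⟨k, hk⟩
  · intro h
    funext k
    exact h k k.2

theorem Agr.refl (x : ℕ → α) (i n : ℕ) : Agr x i i n := fun _ _ => rfl

theorem Agr.symm {x : ℕ → α} {i j n : ℕ} (h : Agr x i j n) : Agr x j i n :=
  fun k hk => (h k hk).symm

theorem Agr.trans {x : ℕ → α} {i j l n : ℕ} (h : Agr x i j n) (h' : Agr x j l n) :
    Agr x i l n := fun k hk => (h k hk).trans (h' k hk)

theorem Agr.mono {x : ℕ → α} {i j n m : ℕ} (h : Agr x i j n) (hm : m ≤ n) : Agr x i j m :=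
  fun k hk => h k (lt_of_lt_of_le hk hm)

/-- shift an agreement to the right -/
theorem Agr.shift {x : ℕ → α} {i j n : ℕ} (u : ℕ) (h : Agr x i j (u + n)) :
    Agr x (i + u) (j + u) n := by
  intro k hk
  have := h (u + k) (by omega)
  rw [add_assoc, add_assoc]
  exact this

/-- concatenate two agreements -/
theorem Agr.append {x : ℕ → α} {i j u n : ℕ} (h : Agr x i j u) (h' : Agr x (i + u) (j + u) n) :
    Agr x i j (u + n) := by
  intro k hk
  by_cases hku : k < u
  · exact h k hku
  · have := h' (k - u) (by omega)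
    rw [show i + u + (k - u) = i + k by omega, show j + u + (k - u) = j + k by omega] at this
    exact this

theorem range_win_finite {x : ℕ → α} (hfin : (Set.range x).Finite) (n : ℕ) :
    (Set.range (win x n)).Finite := by
  have h := Set.Finite.pi (ι := Fin n) (κ := fun _ => α) (t := fun _ => Set.range x)
    (fun _ => hfin)
  refine h.subset ?_
  rintro _ ⟨i, rfl⟩
  simp only [Set.mem_pi, Set.mem_univ, forall_true_left]
  intro k
  exact ⟨i + k, rfl⟩

theorem cplx_eq (x : ℕ → α) (n : ℕ) : cplx x n = (Set.range (win x n)).ncard := rfl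

/-- pigeonhole: among the windows at positions `≥ n0` two agree -/
theorem exists_agr {x : ℕ → α} (hfin : (Set.range x).Finite) (N n0 : ℕ) :
    ∃ i j, n0 ≤ i ∧ i < j ∧ Agr x i j N := by
  have h1 : (Set.range (win x N)).Finite := range_win_finite hfin N
  have h2 : Set.MapsTo (win x N) (Set.Ici n0) (Set.range (win x N)) := fun i _ => ⟨i, rfl⟩
  obtain ⟨i, hi, j, hj, hij, he⟩ := (Set.Ici_infinite n0).exists_ne_map_eq_of_mapsTo h2 h1
  rcases lt_or_gt_of_ne hij with h | h
  · exact ⟨i, j, hi, h, win_eq_iff.1 he⟩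
  · exact ⟨j, i, hj, h, win_eq_iff.1 he.symm⟩

/-- eventually deterministic words are eventually periodic -/
theorem not_det {x : ℕ → α} (hfin : (Set.range x).Finite) (hx : NoPer x) (N n0 : ℕ)
    (hdet : ∀ i j, n0 ≤ i → n0 ≤ j → Agr x i j N → Agr x i j (N + 1)) : False := by
  obtain ⟨i, j, hi, hij, h⟩ := exists_agr hfin N n0
  obtain ⟨n, hn⟩ := hx i j hij
  have key : ∀ m, Agr x (i + m) (j + m) (N + 1) := by
    intro m
    induction m with
    | zero => exact hdet _ _ (by omega) (by omega) h
    | succ m ih =>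
      apply hdet _ _ (by omega) (by omega)
      have := Agr.shift (n := N) 1 (by rw [add_comm 1 N]; exact ih)
      exact this
  exact hn (key n 0 (by omega))

/-- the truncation map on windows -/
def trunc (n : ℕ) (w : Fin (n + 1) → α) : Fin n → α := fun k => w k.castSucc

theorem trunc_win (x : ℕ → α) (n i : ℕ) : trunc n (win x (n + 1) i) = win x n i := rfl

theorem cplx_lt_succ {x : ℕ → α} (hfin : (Set.range x).Finite) (hx : NoPer x) (n : ℕ) :
    cplx x n + 1 ≤ cplx x (n + 1) := by
  classical
  by_contra hcon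
  have hle : cplx x (n + 1) ≤ cplx x n := by omega
  rw [cplx_eq, cplx_eq] at hle
  have himg : trunc n '' (Set.range (win x (n + 1))) = Set.range (win x n) := by
    ext w
    constructor
    · rintro ⟨_, ⟨i, rfl⟩, rfl⟩
      exact ⟨i, rfl⟩
    · rintro ⟨i, rfl⟩
      exact ⟨_, ⟨i, rfl⟩, rfl⟩
  have hinj : Set.InjOn (trunc n) (Set.range (win x (n + 1))) := by
    apply Set.injOn_of_ncard_image_eq
    · rw [himg]
      apply le_antisymm
      · rw [← himg]
        exact Set.ncard_image_le (range_win_finite hfin _)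
      · exact hle
    · exact range_win_finite hfin _
  apply not_det hfin hx n 0
  intro i j _ _ h
  rw [← win_eq_iff] at h ⊢
  apply hinj ⟨i, rfl⟩ ⟨j, rfl⟩
  rw [trunc_win, trunc_win, h]

/-- Morse-Hedlund -/
theorem succ_le_cplx {x : ℕ → α} (hfin : (Set.range x).Finite) (hx : NoPer x) (n : ℕ) :
    n + 1 ≤ cplx x n := by
  induction n with
  | zero =>
    rw [cplx_eq]
    have : (Set.range (win x 0)).Nonempty := ⟨_, ⟨0, rfl⟩⟩
    have := (Set.ncard_pos (range_win_finite hfin 0)).2 this
    omega
  | succ n ih =>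
    have := cplx_lt_succ hfin hx n
    omega

/-- structure when the complexity grows by one -/
theorem special {x : ℕ → α} (hfin : (Set.range x).Finite) (N : ℕ)
    (h1 : cplx x (N + 1) = cplx x N + 1) :
    ∃ (R : ℕ → Prop) (c : ℕ → Bool),
      (∀ i j, Agr x i j N → R i → R j) ∧
      (∀ i j, Agr x i j N → ¬ R i → Agr x i j (N + 1)) ∧
      (∀ i j, R i → R j → Agr x i j N) ∧
      (∀ i j, R i → R j → c i = c j → Agr x i j (N + 1)) ∧
      (∀ i j, R i → R j → c i ≠ c j → ¬ Agr x i j (N + 1)) := by
  classical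
  have hF := range_win_finite hfin (N + 1)
  have hG := range_win_finite hfin N
  -- a section
  have hsurj : ∀ w ∈ Set.range (win x N), ∃ v ∈ Set.range (win x (N + 1)), trunc N v = w := by
    rintro w ⟨i, rfl⟩
    exact ⟨_, ⟨i, rfl⟩, rfl⟩
  haveI : Nonempty α := ⟨x 0⟩
  choose! g hgF hg using hsurj
  have hginj : Set.InjOn g (Set.range (win x N)) := by
    intro a ha b hb hab
    rw [← hg a ha, ← hg b hb, hab]
  have hcard : (g '' Set.range (win x N)).ncard = cplx x N := by
    rw [Set.ncard_image_of_injOn hginj]; rfl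
  have hsub : g '' Set.range (win x N) ⊆ Set.range (win x (N + 1)) := by
    rintro _ ⟨w, hw, rfl⟩
    exact hgF w hw
  have hdiff : (Set.range (win x (N + 1)) \ g '' Set.range (win x N)).ncard = 1 := by
    have := Set.ncard_diff_add_ncard_of_subset hsub hF
    rw [hcard] at this
    have h2 : (Set.range (win x (N + 1))).ncard = cplx x N + 1 := h1
    omega
  obtain ⟨φ, hφ⟩ := Set.ncard_eq_one.1 hdiff
  have hφmem : φ ∈ Set.range (win x (N + 1)) \ g '' Set.range (win x N) := by rw [hφ]; rfl
  have huniq : ∀ v ∈ Set.range (win x (N + 1)), v ≠ φ → v = g (trunc N v) := by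
    intro v hv hne
    have : v ∉ Set.range (win x (N + 1)) \ g '' Set.range (win x N) := by
      rw [hφ]; exact hne
    have hv2 : v ∈ g '' Set.range (win x N) := by
      by_contra hcon
      exact this ⟨hv, hcon⟩
    obtain ⟨w, hw, rfl⟩ := hv2
    rw [hg w hw]
  refine ⟨fun i => win x N i = trunc N φ, fun i => decide (win x (N + 1) i = φ),
    ?_, ?_, ?_, ?_, ?_⟩
  · intro i j h hi
    rw [← win_eq_iff] at h
    show win x N j = _
    rw [← h]; exact hi
  · intro i j h hi
    rw [← win_eq_iff] at h ⊢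
    have hni : win x (N + 1) i ≠ φ := by
      intro he
      exact hi (by show win x N i = _; rw [← he]; rfl)
    have hnj : win x (N + 1) j ≠ φ := by
      intro he
      exact hi (by show win x N i = _; rw [h, ← he]; rfl)
    rw [huniq _ ⟨i, rfl⟩ hni, huniq _ ⟨j, rfl⟩ hnj, trunc_win, trunc_win, h]
  · intro i j hi hj
    rw [← win_eq_iff]
    exact hi.trans hj.symm
  · intro i j hi hj hc
    rw [← win_eq_iff]
    simp only [decide_eq_decide] at hc
    by_cases hi2 : win x (N + 1) i = φ
    · rw [hi2, hc.1 hi2]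
    · have hj2 : win x (N + 1) j ≠ φ := fun h => hi2 (hc.2 h)
      rw [huniq _ ⟨i, rfl⟩ hi2, huniq _ ⟨j, rfl⟩ hj2, trunc_win, trunc_win]
      have hi' : win x N i = trunc N φ := hi
      have hj' : win x N j = trunc N φ := hj
      rw [hi', hj']
  · intro i j _ _ hc h
    rw [← win_eq_iff] at h
    apply hc
    simp only [decide_eq_decide]
    rw [h]

end Pool.Agent.H886R2.Dig
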